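import Pool.Agent.H647R3.GDef
import Pool.Agent.H260R4.TBd
import Pool.Agent.H78R3.FDS_Fd
import Pool.Agent.H871R3.ME
import Pool.Agent.H936R3.FDS_NW

open H647R3.Fac H647R3.GDS

/-- Negative answer to Q1 (and to Q2): there are Hausdorff locally convex spaces `E`, `F` such
that `E × F` is Asplund but `E` is not Asplund, and not even weak Asplund. -/
theorem Pool.Agent.Results.MP_17c4bf_an.AsplundProduct.result :
    ∃ (E : Type) (_ : AddCommGroup E) (_ : Module ℝ E) (_ : TopologicalSpace E)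
      (_ : IsTopologicalAddGroup E) (_ : ContinuousSMul ℝ E) (_ : LocallyConvexSpace ℝ E)
      (_ : T2Space E)
      (F : Type) (_ : AddCommGroup F) (_ : Module ℝ F) (_ : TopologicalSpace F)
      (_ : IsTopologicalAddGroup F) (_ : ContinuousSMul ℝ F) (_ : LocallyConvexSpace ℝ F)
      (_ : T2Space F), IsAsplund (E × F) ∧ ¬ IsAsplund E ∧ ¬ IsWeakAsplund E := by
  obtain ⟨E, a1, a2, a3, a4, a5, a6, a7, F, b1, b2, b3, b4, b5, b6, b7, h1, h2⟩ :=
    assembly Pool.Agent.H260R4.TBd.taskBd taskFd Pool.Agent.H871R3.ME.taskME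
      H936R3.FDS.taskNW
  refine ⟨E, a1, a2, a3, a4, a5, a6, a7, F, b1, b2, b3, b4, b5, b6, b7, h1, ?_, h2⟩
  intro h3
  apply h2
  intro D hD hDo hDc f hf hfc
  obtain ⟨S, hS1, hS2, hS3, hS4⟩ := h3 D hD hDo hDc f hf hfc
  refine ⟨S, hS1, hS2, hS3, fun x hx => ?_⟩
  obtain ⟨φ, hφ⟩ := hS4 x hx
  refine ⟨φ, fun y ε hε => ?_⟩
  obtain ⟨δ, hδ, h5⟩ := hφ {y} (Bornology.isVonNBounded_singleton y) ε hε
  exact ⟨δ, hδ, fun t ht1 ht2 => h5 t ht1 ht2 y (Set.mem_singleton y)⟩
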