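import Pool.Agent.H647R3.DD

open H647R3.Fac

universe u

/-- For every Hausdorff locally convex space `E`: continuous convex functions on `E` have dense
sets of points of Gateaux differentiability if and only if `E × F` is weak Asplund for some
Hausdorff locally convex space `F`. -/
theorem Pool.Agent.Results.MP_17c4bf_an.FactorGateaux.result (E : Type u) [AddCommGroup E]
    [Module ℝ E] [TopologicalSpace E] [IsTopologicalAddGroup E] [ContinuousSMul ℝ E]
    [LocallyConvexSpace ℝ E] [T2Space E] :
    IsGDS E ↔ ∃ (F : Type u) (_ : AddCommGroup F) (_ : Module ℝ F) (_ : TopologicalSpace F)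
      (_ : IsTopologicalAddGroup F) (_ : ContinuousSMul ℝ F) (_ : LocallyConvexSpace ℝ F)
      (_ : T2Space F), IsWeakAsplund (E × F) :=
  gateaux_main
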