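import Pool.Agent.H647R3.EF

open H647R3.Fac H647R3.GDS

/-- Negative answer to Q2: there are a Banach space `E` and a Hausdorff locally convex space `F`
such that `E × F` is weak Asplund but `E` is not weak Asplund. -/
theorem Pool.Agent.Results.MP_17c4bf_an.WeakAsplundProduct.result :
    ∃ (E : Type) (_ : NormedAddCommGroup E) (_ : NormedSpace ℝ E) (_ : CompleteSpace E)
      (F : Type) (_ : AddCommGroup F) (_ : Module ℝ F) (_ : TopologicalSpace F)
      (_ : IsTopologicalAddGroup F) (_ : ContinuousSMul ℝ F) (_ : LocallyConvexSpace ℝ F)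
      (_ : T2Space F), IsWeakAsplund (E × F) ∧ ¬ IsWeakAsplund E := by
  obtain ⟨T, h1, h2⟩ := gds_not_weakAsplund
  obtain ⟨F, i1, i2, i3, i4, i5, i6, i7, h3⟩ := gateaux_main.1 h1
  exact ⟨ET T, inferInstance, inferInstance, Submodule.topologicalClosure.completeSpace _,
    F, i1, i2, i3, i4, i5, i6, i7, h3, h2⟩
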